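import Pool.Agent.U280.OL.Stm

/-! Package Q12 of project OL (helper280): approximation of `H¹` systems on the product. -/

set_option autoImplicit false

open MeasureTheory Set Filter Topology
open scoped ENNReal

namespace Pool.Agent.U94.OL

open Pool.Agent.U280.OD Pool.Agent.U280.OE Pool.Agent.U280.OL

/-- the coordinates of the product as a linear equivalence -/
noncomputable def A0 (k m : ℕ) : P k m ≃ₗ[ℝ] E (k + m) where
  toFun z := WithLp.toLp 2 (Fin.append (WithLp.ofLp z.1) z.2)
  map_add' a b := by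
    ext i
    refine Fin.addCases (fun i => ?_) (fun i => ?_) i <;> simp
  map_smul' c a := by
    ext i
    refine Fin.addCases (fun i => ?_) (fun i => ?_) i <;> simp
  invFun w := (WithLp.toLp 2 (fun i => w (Fin.castAdd m i)), fun j => w (Fin.natAdd k j))
  left_inv a := by
    refine Prod.ext ?_ ?_
    · ext i; simp
    · ext i; simp
  right_inv w := by
    ext i
    refine Fin.addCases (fun i => ?_) (fun i => ?_) i <;> simp

/-- the coordinates of the product as a continuous linear equivalence -/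
noncomputable def Ps (k m : ℕ) : P k m ≃L[ℝ] E (k + m) := (A0 k m).toContinuousLinearEquiv

lemma Ps_apply {k m : ℕ} (z : P k m) :
    Ps k m z = WithLp.toLp 2 (Fin.append (WithLp.ofLp z.1) z.2) := rfl

lemma ofLp_Ps {k m : ℕ} (z : P k m) :
    WithLp.ofLp (Ps k m z) = Fin.append (WithLp.ofLp z.1) z.2 := rfl

lemma Ps_inl {k m : ℕ} (i : Fin k) :
    Ps k m (EuclideanSpace.single i (1 : ℝ), 0) = EuclideanSpace.single (Fin.castAdd m i) 1 := by
  ext j
  rw [Ps_apply]
  refine Fin.addCases (fun j => ?_) (fun j => ?_) j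
  · simp [Pi.single_apply]
  · have h : Fin.natAdd k j ≠ Fin.castAdd m i := by
      intro h
      have := congrArg Fin.val h
      simp at this
      omega
    simp [h]

lemma Ps_inr {k m : ℕ} (i : Fin m) :
    Ps k m (0, Pi.single i (1 : ℝ)) = EuclideanSpace.single (Fin.natAdd k i) 1 := by
  ext j
  rw [Ps_apply]
  refine Fin.addCases (fun j => ?_) (fun j => ?_) j
  · have h : Fin.castAdd m j ≠ Fin.natAdd k i := by
      intro h
      have := congrArg Fin.val h
      simp at this
      omega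
    simp [h]
  · simp [Pi.single_apply]

lemma mpPs (hQ : Q11) (k m : ℕ) :
    MeasurePreserving (fun z : P k m => Ps k m z) volume volume := by
  obtain ⟨J, hJ, hJe⟩ := hQ k m
  have h := (PiLp.volume_preserving_toLp (Fin (k + m))).comp hJ
  have e : (fun z : P k m => Ps k m z) = (WithLp.toLp 2) ∘ J := by
    funext z
    rw [Function.comp_apply, hJe, Ps_apply]
  rw [e]
  exact h

lemma embPs (k m : ℕ) : MeasurableEmbedding (fun z : P k m => Ps k m z) :=
  (Ps k m).toHomeomorph.measurableEmbedding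

lemma fdx {k m : ℕ} {f : E (k + m) → ℂ} (hf : ContDiff ℝ 1 f) (z : P k m) (i : Fin k) :
    fderiv ℝ (sl (fun z => f (Ps k m z)) z.2) z.1 (EuclideanSpace.single i (1 : ℝ)) =
      fderiv ℝ f (Ps k m z) (EuclideanSpace.single (Fin.castAdd m i) (1 : ℝ)) := by
  have h1 : HasFDerivAt f (fderiv ℝ f (Ps k m (z.1, z.2))) (Ps k m (z.1, z.2)) :=
    (hf.differentiable one_ne_zero _).hasFDerivAt
  have h2 : HasFDerivAt (fun z : P k m => Ps k m z) ((Ps k m : P k m →L[ℝ] E (k + m)))
      (z.1, z.2) := (Ps k m).hasFDerivAt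
  have h3 : HasFDerivAt (fun x : E k => ((x, z.2) : P k m))
      (ContinuousLinearMap.inl ℝ (E k) (Fin m → ℝ)) z.1 := hasFDerivAt_prodMk_left _ _
  have h4 := (h1.comp (z.1, z.2) h2).comp z.1 h3
  have h5 : fderiv ℝ (sl (fun z => f (Ps k m z)) z.2) z.1 = _ := h4.fderiv
  rw [h5]
  simp only [ContinuousLinearMap.comp_apply, ContinuousLinearMap.inl_apply]
  exact congrArg _ (Ps_inl i)

lemma fdy {k m : ℕ} {f : E (k + m) → ℂ} (hf : ContDiff ℝ 1 f) (z : P k m) (i : Fin m) :
    fderiv ℝ (fun y => f (Ps k m (z.1, y))) z.2 (Pi.single i (1 : ℝ)) =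
      fderiv ℝ f (Ps k m z) (EuclideanSpace.single (Fin.natAdd k i) (1 : ℝ)) := by
  have h1 : HasFDerivAt f (fderiv ℝ f (Ps k m (z.1, z.2))) (Ps k m (z.1, z.2)) :=
    (hf.differentiable one_ne_zero _).hasFDerivAt
  have h2 : HasFDerivAt (fun z : P k m => Ps k m z) ((Ps k m : P k m →L[ℝ] E (k + m)))
      (z.1, z.2) := (Ps k m).hasFDerivAt
  have h3 : HasFDerivAt (fun y : Fin m → ℝ => ((z.1, y) : P k m))
      (ContinuousLinearMap.inr ℝ (E k) (Fin m → ℝ)) z.2 := hasFDerivAt_prodMk_right _ _
  have h4 := (h1.comp (z.1, z.2) h2).comp z.2 h3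
  have h5 : fderiv ℝ (fun y => f (Ps k m (z.1, y))) z.2 = _ := h4.fderiv
  rw [h5]
  simp only [ContinuousLinearMap.comp_apply, ContinuousLinearMap.inr_apply]
  exact congrArg _ (Ps_inr i)

lemma cont1 {d : ℕ} {f : E d → ℂ} (hf : ContDiff ℝ 1 f) (v : E d) :
    Continuous fun w => ‖fderiv ℝ f w v‖ ^ 2 := by
  have h : Continuous (fderiv ℝ f) := hf.continuous_fderiv one_ne_zero
  fun_prop

lemma sumgrad {k m : ℕ} {f : E (k + m) → ℂ} (hf : ContDiff ℝ 1 f) (hs : HasCompactSupport f)
    (hQ : Q11) :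
    (∫⁻ y, ∫⁻ x, ENNReal.ofReal (grad2 (sl (fun z : P k m => f (Ps k m z)) y) x)) +
      (∫⁻ x, ∫⁻ y, ENNReal.ofReal (gradY (fun z : P k m => f (Ps k m z)) (x, y))) =
      ENNReal.ofReal (∫ w, grad2 f w) := by
  have hc1 : Continuous fun z : P k m => grad2 (sl (fun z : P k m => f (Ps k m z)) z.2) z.1 := by
    unfold grad2
    refine continuous_finsetSum _ fun i _ => ?_
    simp only [fdx hf]
    exact (cont1 hf _).comp (Ps k m).continuous
  have hc2 : Continuous fun z : P k m => gradY (fun z : P k m => f (Ps k m z)) z := by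
    unfold gradY
    refine continuous_finsetSum _ fun i _ => ?_
    simp only [fdy hf]
    exact (cont1 hf _).comp (Ps k m).continuous
  have hm1 : Measurable fun z : P k m =>
      ENNReal.ofReal (grad2 (sl (fun z : P k m => f (Ps k m z)) z.2) z.1) :=
    ENNReal.measurable_ofReal.comp hc1.measurable
  have hm2 : Measurable fun z : P k m =>
      ENNReal.ofReal (gradY (fun z : P k m => f (Ps k m z)) z) :=
    ENNReal.measurable_ofReal.comp hc2.measurable
  have e1 := lintegral_prod_symm (μ := (volume : Measure (E k)))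
    (ν := (volume : Measure (Fin m → ℝ))) _ hm1.aemeasurable
  have e2 := lintegral_prod (μ := (volume : Measure (E k)))
    (ν := (volume : Measure (Fin m → ℝ))) _ hm2.aemeasurable
  simp only at e1 e2
  rw [← e1, ← e2, ← lintegral_add_left hm1]
  have hg : Continuous (grad2 f) := by
    unfold grad2
    exact continuous_finsetSum _ fun i _ => cont1 hf _
  have hgs : HasCompactSupport (grad2 f) := by
    refine HasCompactSupport.intro (hs.fderiv (𝕜 := ℝ)) fun x hx => ?_
    unfold grad2
    refine Finset.sum_eq_zero fun i _ => ?_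
    rw [image_eq_zero_of_notMem_tsupport hx]
    simp
  have hgi : Integrable (grad2 f) := hg.integrable_of_hasCompactSupport hgs
  have hg0 : ∀ w, 0 ≤ grad2 f w := fun w => by
    unfold grad2
    exact Finset.sum_nonneg fun i _ => by positivity
  rw [ofReal_integral_eq_lintegral_ofReal hgi (ae_of_all _ hg0)]
  rw [← (mpPs hQ k m).lintegral_comp_emb (embPs k m) (fun w => ENNReal.ofReal (grad2 f w))]
  refine lintegral_congr fun z => ?_
  have p1 : 0 ≤ grad2 (sl (fun z : P k m => f (Ps k m z)) z.2) z.1 := by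
    unfold grad2
    exact Finset.sum_nonneg fun i _ => by positivity
  have p2 : 0 ≤ gradY (fun z : P k m => f (Ps k m z)) z := by
    unfold gradY
    exact Finset.sum_nonneg fun i _ => by positivity
  rw [← ENNReal.ofReal_add p1 p2]
  congr 1
  unfold gradY
  conv_rhs => unfold grad2
  conv_lhs => unfold grad2
  simp only [fdx hf, fdy hf]
  rw [Fin.sum_univ_add]

theorem t_Q12 : T_H → Q11 → Q12 := by
  intro hH hQ k m N u g hg
  obtain ⟨F, hF1, hF2, hF3, hF4, hF5⟩ := hH (k + m) N u g hg
  refine ⟨fun κ n z => F κ n (Ps k m z), fun κ n => (hF1 κ n).comp (Ps k m).contDiff,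
    fun κ n => (hF2 κ n).comp_homeomorph (Ps k m).toHomeomorph, ?_, ?_, ?_⟩
  · exact (mpPs hQ k m).quasiMeasurePreserving.ae hF3
  · have h : Tendsto (fun κ => ∑ n, ∫ x : E (k + m), ‖F κ n x - u n (WithLp.ofLp x)‖ ^ 2) atTop
        (𝓝 (∑ _n : Fin N, (0 : ℝ))) := tendsto_finsetSum _ fun n _ => hF4 n
    rw [Finset.sum_const_zero] at h
    refine h.congr fun κ => Finset.sum_congr rfl fun n _ => ?_
    exact ((mpPs hQ k m).integral_comp (embPs k m)
      (fun x => ‖F κ n x - u n (WithLp.ofLp x)‖ ^ 2)).symm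
  · intro κ
    rw [← Finset.sum_add_distrib]
    have e : ∀ n : Fin N, _ := fun n => sumgrad (k := k) (m := m) (hF1 κ n) (hF2 κ n) hQ
    rw [Finset.sum_congr rfl fun n _ => e n]
    rw [← ENNReal.ofReal_sum_of_nonneg]
    · exact ENNReal.ofReal_le_ofReal (hF5 κ)
    · intro n _
      refine integral_nonneg fun w => ?_
      change 0 ≤ grad2 (F κ n) w
      unfold grad2
      exact Finset.sum_nonneg fun i _ => by positivity

end Pool.Agent.U94.OL
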